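import Pool.Agent.Helper45.AM.GoalsA
import Pool.Agent.Helper15.RA.GoalsH

/-!
# Project AM (MP_cc6379_al), packet AJ: the ring `J_P`, trace form, cyclicity, strong P8, refined (U)
-/

set_option autoImplicit false

open LaurentPolynomial Pool.Agent.Helper15.RA Pool.Agent.Helper45.AM

noncomputable section

namespace Pool.Agent.Helper64.AM

theorem coeff_fsum {ι : Type*} (s : Finset ι) (f : ι → ℤ[T;T⁻¹]) (n : ℤ) :
    (∑ i ∈ s, f i).coeff n = ∑ i ∈ s, (f i).coeff n := by
  classical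
  induction s using Finset.induction_on with
  | empty => rfl
  | insert i s hi ih =>
    rw [Finset.sum_insert hi, Finset.sum_insert hi, ← ih, AddMonoidAlgebra.coeff_add,
      Finsupp.add_apply]

section

variable {S W H : Type} [Group W] [Ring H] [Algebra ℤ[T;T⁻¹] H] (X : Base S W H)

theorem eqR_trans {P : Set S} {x y z : W} (h : X.eqR P x y) (h' : X.eqR P y z) : X.eqR P x z :=
  ⟨h'.1.trans h.1, h.2.trans h'.2⟩

theorem eqR_symm {P : Set S} {x y : W} (h : X.eqR P x y) : X.eqR P y x := ⟨h.2, h.1⟩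

theorem eqL_trans {P : Set S} {x y z : W} (h : X.eqL P x y) (h' : X.eqL P y z) : X.eqL P x z :=
  ⟨h'.1.trans h.1, h.2.trans h'.2⟩

theorem eqL_symm {P : Set S} {x y : W} (h : X.eqL P x y) : X.eqL P y x := ⟨h.2, h.1⟩

/-- the structure constants of `J_P` -/
def cz (α : W → ℕ) (x y z : W) : ℤ := (X.h x y z).coeff (α z)

/-- `n_z` -/
def nz (α : W → ℕ) (z : W) : ℤ := (X.D.t.repr (X.D.c z) 1).coeff (-(α z : ℤ))

theorem cz_zero {α : W → ℕ} {x y z : W} (h : X.h x y z = 0) : cz X α x y z = 0 := by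
  unfold cz
  rw [h]
  rfl

theorem assocH (hrep : ∀ x y, X.b.repr (X.D.c x * X.D.c y) = X.h x y) (x y w u : W) :
    ∑ z ∈ (X.h x y).support, X.h x y z * X.h z w u =
      ∑ z ∈ (X.h y w).support, X.h y w z * X.h x z u := by
  have h5 : X.b.repr (X.D.c x * X.D.c y * X.D.c w) u =
      ∑ z ∈ (X.h x y).support, X.h x y z * X.h z w u := by
    rw [X.isH x y, Finsupp.sum, Finset.sum_mul, map_sum, Finsupp.finsetSum_apply]
    refine Finset.sum_congr rfl fun z _ => ?_
    rw [smul_mul_assoc, map_smul, hrep, Finsupp.smul_apply, smul_eq_mul]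
  have h6 : X.b.repr (X.D.c x * (X.D.c y * X.D.c w)) u =
      ∑ z ∈ (X.h y w).support, X.h y w z * X.h x z u := by
    rw [X.isH y w, Finsupp.sum, Finset.mul_sum, map_sum, Finsupp.finsetSum_apply]
    refine Finset.sum_congr rfl fun z _ => ?_
    rw [mul_smul_comm, map_smul, hrep, Finsupp.smul_apply, smul_eq_mul]
  rw [← h5, ← h6, mul_assoc]

theorem assocJ (hrep : ∀ x y, X.b.repr (X.D.c x * X.D.c y) = X.h x y) {P : Set S} {α : W → ℕ}
    (hcl : ∀ x ∈ par X.cs P, ∀ y ∈ par X.cs P, ∀ z, X.h x y z ≠ 0 → z ∈ par X.cs P)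
    (hG : PG X.D X.h P α) {x y w u : W} (hx : x ∈ par X.cs P) (hy : y ∈ par X.cs P)
    (hw : w ∈ par X.cs P) (hu : u ∈ par X.cs P) :
    ∑ z ∈ (X.h x y).support, cz X α x y z * cz X α z w u =
      ∑ z ∈ (X.h y w).support, cz X α y w z * cz X α x z u := by
  have h7 := congrArg (fun p : ℤ[T;T⁻¹] => p.coeff ((α u : ℤ) + α u)) (assocH X hrep x y w u)
  simp only [coeff_fsum] at h7
  rw [Finset.sum_congr rfl, h7]
  · refine Finset.sum_congr rfl fun z hz => ?_
    have hzG : z ∈ par X.cs P := hcl y hy w hw z (Finsupp.mem_support_iff.1 hz)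
    by_cases hz0 : X.h x z u = 0
    · rw [hz0, mul_zero, cz_zero X hz0, mul_zero]
      rfl
    · have h8 := (hG.p4 x hx z hzG u hu hz0).2
      rw [coeff_mul_top ((hG.deg y hy w hw z hzG).mono (by exact_mod_cast h8)) (hG.deg x hx z hzG u hu)]
      by_cases hg : (X.h x z u).coeff (α u : ℤ) = 0
      · unfold cz
        rw [hg, mul_zero, mul_zero]
      · have h9 := (hG.p8 x hx z hzG u hu hg).2
        unfold cz
        rw [h9]
  · intro z hz
    have hzG : z ∈ par X.cs P := hcl x hx y hy z (Finsupp.mem_support_iff.1 hz)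
    by_cases hz0 : X.h z w u = 0
    · rw [hz0, mul_zero, cz_zero X hz0, mul_zero]
      rfl
    · have h8 := (hG.p4 z hzG w hw u hu hz0).1
      rw [coeff_mul_top ((hG.deg x hx y hy z hzG).mono (by exact_mod_cast h8)) (hG.deg z hzG w hw u hu)]
      by_cases hg : (X.h z w u).coeff (α u : ℤ) = 0
      · unfold cz
        rw [hg, mul_zero, mul_zero]
      · have h9 := (hG.p8 z hzG w hw u hu hg).1
        unfold cz
        rw [h9]

open Classical in
/-- the coefficient of `v^0 T_1` in `c_x c_y` -/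
theorem trace0 (h1 : H_1) (h2 : H_2) (x y : W) :
    (X.D.t.repr (X.D.c x * X.D.c y) 1).coeff 0 = if x * y = 1 then 1 else 0 := by
  obtain ⟨-, -, -, -, -, -, ht1, ht0⟩ := h1 S W H X.M X.cs X.L X.D.toHecke0
  obtain ⟨-, -, -, hc1, -, hc0, -⟩ := h2 S W H X.M X.cs X.L X.wt X.D
  have hd : ∀ w u, DegLE 0 (X.D.t.repr (X.D.c w) u) := by
    intro w u
    by_cases h : u = w
    · rw [h, hc1]
      exact DegLE.one le_rfl
    · exact (hc0 w u h).mono (by omega)
  have h0 : ∀ w u, (X.D.t.repr (X.D.c w) u).coeff 0 = if u = w then 1 else 0 := by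
    intro w u
    split_ifs with h
    · rw [h, hc1, ← T_zero, T_apply, if_pos rfl]
    · exact hc0 w u h 0 (by omega)
  have hex : ∀ w, X.D.c w = ∑ u ∈ (X.D.t.repr (X.D.c w)).support, X.D.t.repr (X.D.c w) u • X.D.t u := by
    intro w
    conv_lhs => rw [← X.D.t.linearCombination_repr (X.D.c w)]
    rw [Finsupp.linearCombination_apply, Finsupp.sum]
  have hx : x ∈ (X.D.t.repr (X.D.c x)).support := by
    rw [Finsupp.mem_support_iff, hc1]
    intro h
    have := h0 x x
    rw [hc1, h, if_pos rfl] at this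
    exact absurd this (by decide)
  have hy : y ∈ (X.D.t.repr (X.D.c y)).support := by
    rw [Finsupp.mem_support_iff, hc1]
    intro h
    have := h0 y y
    rw [hc1, h, if_pos rfl] at this
    exact absurd this (by decide)
  have hprod : X.D.t.repr (X.D.c x * X.D.c y) 1 =
      ∑ u ∈ (X.D.t.repr (X.D.c x)).support, ∑ u' ∈ (X.D.t.repr (X.D.c y)).support,
        X.D.t.repr (X.D.c x) u * (X.D.t.repr (X.D.c y) u' * X.D.t.repr (X.D.t u * X.D.t u') 1) := by
    conv_lhs => rw [hex x, hex y]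
    rw [Finset.sum_mul, map_sum, Finsupp.finsetSum_apply]
    refine Finset.sum_congr rfl fun u _ => ?_
    rw [Finset.mul_sum, map_sum, Finsupp.finsetSum_apply]
    refine Finset.sum_congr rfl fun u' _ => ?_
    rw [smul_mul_assoc, mul_smul_comm, map_smul, map_smul, Finsupp.smul_apply, Finsupp.smul_apply,
      smul_eq_mul, smul_eq_mul]
  have hterm : ∀ u u', (X.D.t.repr (X.D.c x) u *
      (X.D.t.repr (X.D.c y) u' * X.D.t.repr (X.D.t u * X.D.t u') 1)).coeff 0 =
      if u = x then (if u' = y then (if x * y = 1 then 1 else 0) else 0) else 0 := by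
    intro u u'
    by_cases hu : u * u' = 1
    · rw [ht1 u u' hu, mul_one]
      have h3 := coeff_mul_top (hd x u) (hd y u')
      rw [add_zero] at h3
      rw [h3, h0, h0]
      by_cases hux : u = x
      · by_cases huy : u' = y
        · rw [if_pos hux, if_pos huy, if_pos hux, if_pos huy, if_pos (by rw [← hux, ← huy]; exact hu)]
          rfl
        · rw [if_neg huy, if_neg huy, mul_zero, ite_self]
      · rw [if_neg hux, if_neg hux, zero_mul]
    · rw [ht0 u u' hu, mul_zero, mul_zero]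
      by_cases hux : u = x
      · by_cases huy : u' = y
        · rw [if_pos hux, if_pos huy, if_neg (by rw [← hux, ← huy]; exact hu)]
          rfl
        · rw [if_pos hux, if_neg huy]
          rfl
      · rw [if_neg hux]
        rfl
  rw [hprod, coeff_fsum]
  have h4 : ∀ u ∈ (X.D.t.repr (X.D.c x)).support, (∑ u' ∈ (X.D.t.repr (X.D.c y)).support,
        X.D.t.repr (X.D.c x) u * (X.D.t.repr (X.D.c y) u' * X.D.t.repr (X.D.t u * X.D.t u') 1)).coeff 0 =
      if u = x then (if x * y = 1 then 1 else 0) else 0 := by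
    intro u _
    rw [coeff_fsum]
    simp only [hterm]
    by_cases hux : u = x
    · simp only [if_pos hux]
      rw [Finset.sum_ite_eq' _ y, if_pos hy]
    · simp only [if_neg hux]
      exact Finset.sum_const_zero
  rw [Finset.sum_congr rfl h4, Finset.sum_ite_eq' _ x, if_pos hx]

open Classical in
theorem traceJ (h1 : H_1) (h2 : H_2) {P : Set S} {α : W → ℕ}
    (hcl : ∀ x ∈ par X.cs P, ∀ y ∈ par X.cs P, ∀ z, X.h x y z ≠ 0 → z ∈ par X.cs P)
    (hG : PG X.D X.h P α) {x y : W} (hx : x ∈ par X.cs P) (hy : y ∈ par X.cs P) :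
    ∑ z ∈ (X.h x y).support, cz X α x y z * nz X α z = if x * y = 1 then 1 else 0 := by
  rw [← trace0 X h1 h2 x y]
  have h3 : X.D.t.repr (X.D.c x * X.D.c y) 1 =
      ∑ z ∈ (X.h x y).support, X.h x y z * X.D.t.repr (X.D.c z) 1 := by
    rw [X.isH x y, Finsupp.sum, map_sum, Finsupp.finsetSum_apply]
    refine Finset.sum_congr rfl fun z _ => ?_
    rw [map_smul, Finsupp.smul_apply, smul_eq_mul]
  rw [h3, coeff_fsum]
  refine Finset.sum_congr rfl fun z hz => ?_
  have hzG : z ∈ par X.cs P := hcl x hx y hy z (Finsupp.mem_support_iff.1 hz)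
  have h4 := coeff_mul_top (hG.deg x hx y hy z hzG) (hG.p1 z hzG)
  rw [add_neg_cancel] at h4
  rw [h4]
  rfl

open Classical in
/-- the trace, summed over a larger set -/
theorem traceJ_big (h1 : H_1) (h2 : H_2) {P : Set S} {α : W → ℕ}
    (hcl : ∀ x ∈ par X.cs P, ∀ y ∈ par X.cs P, ∀ z, X.h x y z ≠ 0 → z ∈ par X.cs P)
    (hG : PG X.D X.h P α) {x y : W} (hx : x ∈ par X.cs P) (hy : y ∈ par X.cs P) (Z : Finset W)
    (hZ : (X.h x y).support ⊆ Z) :
    ∑ z ∈ Z, cz X α x y z * nz X α z = if x * y = 1 then 1 else 0 := by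
  rw [← traceJ X h1 h2 hcl hG hx hy]
  symm
  refine Finset.sum_subset hZ fun z _ hz => ?_
  rw [cz_zero X (Finsupp.notMem_support_iff.1 hz), zero_mul]

theorem cyc (hrep : ∀ x y, X.b.repr (X.D.c x * X.D.c y) = X.h x y) (h1 : H_1) (h2 : H_2)
    {P : Set S} {α : W → ℕ}
    (hcl : ∀ x ∈ par X.cs P, ∀ y ∈ par X.cs P, ∀ z, X.h x y z ≠ 0 → z ∈ par X.cs P)
    (hG : PG X.D X.h P α) {x y u : W} (hx : x ∈ par X.cs P) (hy : y ∈ par X.cs P)
    (hu : u ∈ par X.cs P) : cz X α x y u⁻¹ = cz X α y u x⁻¹ := by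
  classical
  let Z : Finset W := ((X.h x y).support.biUnion fun w => (X.h w u).support) ∪
    ((X.h y u).support.biUnion fun w => (X.h x w).support)
  have hm1 : ∀ w ∈ (X.h x y).support, w ∈ par X.cs P := fun w hw =>
    hcl x hx y hy w (Finsupp.mem_support_iff.1 hw)
  have hm2 : ∀ w ∈ (X.h y u).support, w ∈ par X.cs P := fun w hw =>
    hcl y hy u hu w (Finsupp.mem_support_iff.1 hw)
  have hZG : ∀ z ∈ Z, z ∈ par X.cs P := by
    intro z hz
    rcases Finset.mem_union.1 hz with h | h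
    · obtain ⟨w, hw, hzw⟩ := Finset.mem_biUnion.1 h
      exact hcl w (hm1 w hw) u hu z (Finsupp.mem_support_iff.1 hzw)
    · obtain ⟨w, hw, hzw⟩ := Finset.mem_biUnion.1 h
      exact hcl x hx w (hm2 w hw) z (Finsupp.mem_support_iff.1 hzw)
  have hA : ∑ z ∈ Z, nz X α z * ∑ w ∈ (X.h x y).support, cz X α x y w * cz X α w u z =
      ∑ z ∈ Z, nz X α z * ∑ w ∈ (X.h y u).support, cz X α y u w * cz X α x w z :=
    Finset.sum_congr rfl fun z hz => by rw [assocJ X hrep hcl hG hx hy hu (hZG z hz)]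
  have hL : ∑ z ∈ Z, nz X α z * ∑ w ∈ (X.h x y).support, cz X α x y w * cz X α w u z =
      cz X α x y u⁻¹ := by
    simp only [Finset.mul_sum]
    rw [Finset.sum_comm]
    have h3 : ∀ w ∈ (X.h x y).support, ∑ z ∈ Z, nz X α z * (cz X α x y w * cz X α w u z) =
        if w = u⁻¹ then cz X α x y u⁻¹ else 0 := by
      intro w hw
      have h4 : ∑ z ∈ Z, nz X α z * (cz X α x y w * cz X α w u z) =
          cz X α x y w * ∑ z ∈ Z, cz X α w u z * nz X α z := by
        rw [Finset.mul_sum]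
        exact Finset.sum_congr rfl fun z _ => by ring
      rw [h4, traceJ_big X h1 h2 hcl hG (hm1 w hw) hu Z
        ((Finset.subset_biUnion_of_mem (fun w => (X.h w u).support) hw).trans Finset.subset_union_left)]
      by_cases hwu : w = u⁻¹
      · rw [if_pos (by rw [hwu, inv_mul_cancel]), if_pos hwu, mul_one, hwu]
      · rw [if_neg (fun h => hwu (eq_inv_of_mul_eq_one_left h)), if_neg hwu, mul_zero]
    rw [Finset.sum_congr rfl h3, Finset.sum_ite_eq' _ u⁻¹]
    split_ifs with h5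
    · rfl
    · rw [cz_zero X (Finsupp.notMem_support_iff.1 h5)]
  have hR : ∑ z ∈ Z, nz X α z * ∑ w ∈ (X.h y u).support, cz X α y u w * cz X α x w z =
      cz X α y u x⁻¹ := by
    simp only [Finset.mul_sum]
    rw [Finset.sum_comm]
    have h3 : ∀ w ∈ (X.h y u).support, ∑ z ∈ Z, nz X α z * (cz X α y u w * cz X α x w z) =
        if w = x⁻¹ then cz X α y u x⁻¹ else 0 := by
      intro w hw
      have h4 : ∑ z ∈ Z, nz X α z * (cz X α y u w * cz X α x w z) =
          cz X α y u w * ∑ z ∈ Z, cz X α x w z * nz X α z := by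
        rw [Finset.mul_sum]
        exact Finset.sum_congr rfl fun z _ => by ring
      rw [h4, traceJ_big X h1 h2 hcl hG hx (hm2 w hw) Z
        ((Finset.subset_biUnion_of_mem (fun w => (X.h x w).support) hw).trans Finset.subset_union_right)]
      by_cases hwu : w = x⁻¹
      · rw [if_pos (by rw [hwu, mul_inv_cancel]), if_pos hwu, mul_one, hwu]
      · rw [if_neg (fun h => hwu (eq_inv_of_mul_eq_one_right h)), if_neg hwu, mul_zero]
    rw [Finset.sum_congr rfl h3, Finset.sum_ite_eq' _ x⁻¹]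
    split_ifs with h5
    · rfl
    · rw [cz_zero X (Finsupp.notMem_support_iff.1 h5)]
  rw [← hL, hA, hR]

end

theorem h_a_j (hAB : A_B) (hAS : A_S) (hAM : A_M) (h1 : H_1) (h2 : H_2) : A_J := by
  classical
  intro S W H _ _ _ X P α hG
  have hrep := (hAB S W H X).1
  have hcl := (hAS S W H X P).2.2.2.2.2.1
  obtain ⟨-, -, -, -, hRL, hLR⟩ := hAM S W H X
  have hcy : ∀ x ∈ par X.cs P, ∀ y ∈ par X.cs P, ∀ u ∈ par X.cs P,
      (X.h x y u⁻¹).coeff (α u⁻¹) = (X.h y u x⁻¹).coeff (α x⁻¹) := fun x hx y hy u hu =>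
    cyc X hrep h1 h2 hcl hG hx hy hu
  have hne : ∀ x y z, (X.h x y z).coeff (α z) ≠ 0 → X.h x y z ≠ 0 := by
    intro x y z hz h0
    exact hz (cz_zero X (α := α) h0)
  have h8 : ∀ x ∈ par X.cs P, ∀ y ∈ par X.cs P, ∀ z ∈ par X.cs P, (X.h x y z).coeff (α z) ≠ 0 →
      X.eqR P z x ∧ X.eqL P z y ∧ X.eqR P x⁻¹ y ∧ X.eqL P x y⁻¹ := by
    intro x hx y hy z hz hxyz
    have hz' : z⁻¹ ∈ par X.cs P := inv_mem hz
    have e1 := hcy x hx y hy z⁻¹ hz'
    rw [inv_inv] at e1
    have e2 := hcy y hy z⁻¹ hz' x hx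
    have n1 : (X.h y z⁻¹ x⁻¹).coeff (α x⁻¹) ≠ 0 := by rw [← e1]; exact hxyz
    have n2 : (X.h z⁻¹ x y⁻¹).coeff (α y⁻¹) ≠ 0 := by rw [← e2]; exact n1
    have a1 : X.leR P z x := Relation.ReflTransGen.single ⟨y, hy, hne _ _ _ hxyz⟩
    have a2 : X.leL P z y := Relation.ReflTransGen.single ⟨x, hx, hne _ _ _ hxyz⟩
    have a3 : X.leR P x⁻¹ y := Relation.ReflTransGen.single ⟨z⁻¹, hz', hne _ _ _ n1⟩
    have a4 : X.leL P x⁻¹ z⁻¹ := Relation.ReflTransGen.single ⟨y, hy, hne _ _ _ n1⟩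
    have a5 : X.leR P y⁻¹ z⁻¹ := Relation.ReflTransGen.single ⟨x, hx, hne _ _ _ n2⟩
    have a6 : X.leL P y⁻¹ x := Relation.ReflTransGen.single ⟨z⁻¹, hz', hne _ _ _ n2⟩
    refine ⟨⟨a1, (hRL P x z).2 a4⟩, ⟨a2, (hLR P y z).2 a5⟩, ⟨a3, (hRL P y x⁻¹).2 (by rw [inv_inv]; exact a6)⟩,
      ⟨(hLR P x y⁻¹).2 (by rw [inv_inv]; exact a3), a6⟩⟩
  refine ⟨fun x hx y hy hxy => ?_, fun x hx y hy hxy => ?_, hcy, h8, fun g hg => ?_⟩
  · have := traceJ X h1 h2 hcl hG hx hy
    rw [if_pos hxy] at this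
    exact this
  · have := traceJ X h1 h2 hcl hG hx hy
    rw [if_neg hxy] at this
    exact this
  · obtain ⟨lam, hl1, hl2⟩ := hG.u g hg
    refine ⟨lam.filter fun p => X.eqR P p.1 g ∧ X.eqL P p.2 g, ?_, ?_, ?_⟩
    · intro p hp
      rw [Finsupp.support_filter, Finset.mem_filter] at hp
      exact ⟨(hl1 p hp.1).1, (hl1 p hp.1).2, hp.2.1, hp.2.2⟩
    · have key := hl2 g hg
      rw [if_pos rfl] at key
      rw [← key, Finsupp.sum, Finsupp.sum, Finsupp.support_filter, Finset.sum_filter]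
      refine Finset.sum_congr rfl fun p hp => ?_
      by_cases hc : (X.h p.1 p.2 g).coeff (α g) = 0
      · rw [hc, mul_zero, mul_zero, ite_self]
      · obtain ⟨b1, b2, -⟩ := h8 p.1 (hl1 p hp).1 p.2 (hl1 p hp).2 g hg hc
        have hQ : X.eqR P p.1 g ∧ X.eqL P p.2 g := ⟨eqR_symm X b1, eqL_symm X b2⟩
        rw [if_pos hQ, Finsupp.filter_apply_pos (fun p : W × W => X.eqR P p.1 g ∧ X.eqL P p.2 g) lam hQ]
    · intro z hz hzg
      by_cases hcase : X.eqR P z g ∧ X.eqL P z g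
      · have key := hl2 z hz
        rw [if_neg hzg] at key
        rw [← key, Finsupp.sum, Finsupp.sum, Finsupp.support_filter, Finset.sum_filter]
        refine Finset.sum_congr rfl fun p hp => ?_
        by_cases hc : (X.h p.1 p.2 z).coeff (α z) = 0
        · rw [hc, mul_zero, mul_zero, ite_self]
        · obtain ⟨b1, b2, -⟩ := h8 p.1 (hl1 p hp).1 p.2 (hl1 p hp).2 z hz hc
          have hQ : X.eqR P p.1 g ∧ X.eqL P p.2 g :=
            ⟨eqR_trans X (eqR_symm X b1) hcase.1, eqL_trans X (eqL_symm X b2) hcase.2⟩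
          rw [if_pos hQ, Finsupp.filter_apply_pos (fun p : W × W => X.eqR P p.1 g ∧ X.eqL P p.2 g) lam hQ]
      · rw [Finsupp.sum, Finsupp.support_filter]
        refine Finset.sum_eq_zero fun p hp => ?_
        rw [Finset.mem_filter] at hp
        by_cases hc : (X.h p.1 p.2 z).coeff (α z) = 0
        · rw [hc, mul_zero]
        · obtain ⟨b1, b2, -⟩ := h8 p.1 (hl1 p hp.1).1 p.2 (hl1 p hp.1).2 z hz hc
          exact absurd ⟨eqR_trans X b1 hp.2.1, eqL_trans X b2 hp.2.2⟩ hcase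

end Pool.Agent.Helper64.AM
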